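import Pool.Agent.Lib_helper59.PT.Approx
import Pool.Agent.Lib_helper59.PT.Compact2
import Pool.Agent.Lib_helper59.PT.L1

/-!
# Pettis integrable functions: transfer to the bidual of the range space

Let `f : Ω → X` be Pettis integrable and let `E ⊆ X` contain the range of its indefinite integral
(for instance the closed linear span of the range).  Every operator from `E` to a separable space
`Z` turns `f` into a Pettis integrable function with values in `Z**`.  Hence the range of the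
integral is relatively norm compact as soon as `E` embeds in a separable space complemented in its
bidual, or in some `L¹(m)`.
-/

set_option autoImplicit false
set_option maxSynthPendingDepth 3

namespace Pool.Agent.Results.MP_7b08db_an.BidualTransfer

open MeasureTheory Filter Topology

/-- `v` is the Pettis integral of `f` over `A`. -/
def IsIntegral {Ω X : Type*} [MeasurableSpace Ω] [NormedAddCommGroup X] [NormedSpace ℝ X]
    (f : Ω → X) (μ : Measure Ω) (A : Set Ω) (v : X) : Prop :=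
  ∀ φ : X →L[ℝ] ℝ, φ v = ∫ ω in A, φ (f ω) ∂μ

/-- `f` is Pettis integrable. -/
def IsPettis {Ω X : Type*} [MeasurableSpace Ω] [NormedAddCommGroup X] [NormedSpace ℝ X]
    (f : Ω → X) (μ : Measure Ω) : Prop :=
  (∀ φ : X →L[ℝ] ℝ, Integrable (fun ω => φ (f ω)) μ) ∧
    ∀ A : Set Ω, MeasurableSet A → ∃ v : X, IsIntegral f μ A v

/-- The range of the indefinite Pettis integral of `f`. -/
def integralRange {Ω X : Type*} [MeasurableSpace Ω] [NormedAddCommGroup X] [NormedSpace ℝ X]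
    (f : Ω → X) (μ : Measure Ω) : Set X :=
  {v | ∃ A : Set Ω, MeasurableSet A ∧ IsIntegral f μ A v}

/-- The bidual `Z**` of `Z`: the continuous linear functionals on the dual of `Z`. -/
def Bidual (Z : Type*) [NormedAddCommGroup Z] [NormedSpace ℝ Z] : Type _ :=
  (Z →L[ℝ] ℝ) →L[ℝ] ℝ

section Bidual

variable (Z : Type*) [NormedAddCommGroup Z] [NormedSpace ℝ Z]

/-- The usual norm of the bidual. -/
noncomputable instance : NormedAddCommGroup (Bidual Z) :=
  (inferInstance : NormedAddCommGroup ((Z →L[ℝ] ℝ) →L[ℝ] ℝ))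

noncomputable instance : NormedSpace ℝ (Bidual Z) :=
  (inferInstance : NormedSpace ℝ ((Z →L[ℝ] ℝ) →L[ℝ] ℝ))

/-- The canonical embedding of `Z` in its bidual. -/
noncomputable def ι : Z →L[ℝ] Bidual Z := NormedSpace.inclusionInDoubleDual ℝ Z

variable {Z}

/-- An operator `T` to `Z`, regarded as an operator to the bidual of `Z`. -/
noncomputable def up {E : Type*} [NormedAddCommGroup E] [NormedSpace ℝ E] (T : E →L[ℝ] Z) :
    E →L[ℝ] Bidual Z := (ι Z).comp T

end Bidual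

section Definitions

variable {Ω X E B : Type*} [MeasurableSpace Ω] [NormedAddCommGroup X] [NormedSpace ℝ X]
  [NormedAddCommGroup E] [NormedSpace ℝ E] [NormedAddCommGroup B] [NormedSpace ℝ B]
  (f : Ω → X) (μ : Measure Ω) (i : E →L[ℝ] X) (S : E →L[ℝ] B)

/-- `F` is Pettis integrable and its integrals are the images under `S` of those of `f`
(the integrals of `f` lie in `E`, regarded as a subspace of `X` by means of `i`). -/
def Integrates (F : Ω → B) : Prop :=
  IsPettis F μ ∧ ∀ (A : Set Ω) (v : E), IsIntegral f μ A (i v) → IsIntegral F μ A (S v)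

/-- Off one null set, `F` is bounded by `‖S‖ ‖f‖` and every functional `ζ` acts on `F` as some
functional `x` on `X`, which extends `ζ ∘ S`, acts on `f`. -/
def ActsAs (F : Ω → B) : Prop :=
  ∃ N : Set Ω, μ N = 0 ∧ (∀ ω, ω ∉ N → ‖F ω‖ ≤ ‖S‖ * ‖f ω‖) ∧
    ∀ ζ : B →L[ℝ] ℝ, ∃ x : X →L[ℝ] ℝ,
      ‖x‖ ≤ ‖S‖ * ‖ζ‖ ∧ (∀ e : E, x (i e) = ζ (S e)) ∧ ∀ ω, ω ∉ N → ζ (F ω) = x (f ω)

/-- `S` takes the range of the integral of `f` to a relatively norm compact set, and if `S` is an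
isomorphic embedding then the range itself is relatively norm compact. -/
def CompactRange : Prop :=
  IsCompact (closure (S '' {e | i e ∈ integralRange f μ})) ∧
    ((∃ c : ℝ, 0 < c ∧ ∀ e : E, c * ‖e‖ ≤ ‖S e‖) → IsCompact (closure (integralRange f μ)))

end Definitions

/-- Every bounded operator from `E` to a space `L¹(m)` has the property `CompactRange`. -/
def CompactInL1.{u, v, w, t} {Ω : Type u} {X : Type v} {E : Type w} [MeasurableSpace Ω]
    [NormedAddCommGroup X] [NormedSpace ℝ X] [NormedAddCommGroup E] [NormedSpace ℝ E]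
    (f : Ω → X) (μ : Measure Ω) (i : E →L[ℝ] X) : Prop :=
  ∀ (S : Type t) [MeasurableSpace S] (m : Measure S) (T : E →L[ℝ] Lp ℝ 1 m), CompactRange f μ i T

section Lemmas

variable {Ω X : Type*} [MeasurableSpace Ω] [NormedAddCommGroup X] [NormedSpace ℝ X]
  {f : Ω → X} {μ : Measure Ω}

/-- composition of a transferred function with an operator. -/
theorem push {E Y W : Type*} [NormedAddCommGroup E] [NormedSpace ℝ E] [NormedAddCommGroup Y]
    [NormedSpace ℝ Y] [NormedAddCommGroup W]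
    [NormedSpace ℝ W] (hf : IsPettis f μ) (i : E →L[ℝ] X)
    (hE : integralRange f μ ⊆ Set.range i) (T : E →L[ℝ] Y)
    (F : Ω → Y) (N : Set Ω) (hN : μ N = 0)
    (hF : ∀ ζ : Y →L[ℝ] ℝ, ∃ x : X →L[ℝ] ℝ, (∀ e : E, x (i e) = ζ (T e)) ∧
        ∀ ω, ω ∉ N → ζ (F ω) = x (f ω))
    (P : Y →L[ℝ] W) :
    Integrates f μ i (P.comp T) (fun ω => P (F ω)) := by
  have key : ∀ φ : W →L[ℝ] ℝ, ∃ x : X →L[ℝ] ℝ, (∀ e : E, x (i e) = φ (P (T e))) ∧
      (fun ω => φ (P (F ω))) =ᵐ[μ] fun ω => x (f ω) := by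
    intro φ
    obtain ⟨x, hx1, hx2⟩ := hF (φ.comp P)
    refine ⟨x, hx1, ?_⟩
    have h1 : ∀ᵐ ω ∂μ, ω ∉ N := measure_eq_zero_iff_ae_notMem.mp hN
    filter_upwards [h1] with ω hω
    exact hx2 ω hω
  have hint : ∀ (A : Set Ω) (v : E), IsIntegral f μ A (i v) →
      IsIntegral (fun ω => P (F ω)) μ A (P (T v)) := by
    intro A v hv φ
    obtain ⟨x, hx1, hx2⟩ := key φ
    rw [← hx1 v, hv x]
    exact (integral_congr_ae (ae_restrict_of_ae hx2)).symm
  refine ⟨⟨fun φ => ?_, fun A hA => ?_⟩, hint⟩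
  · obtain ⟨x, hx1, hx2⟩ := key φ
    exact (hf.1 x).congr hx2.symm
  · obtain ⟨v, hv⟩ := hf.2 A hA
    obtain ⟨e, he⟩ := hE ⟨A, hA, hv⟩
    exact ⟨P (T e), hint A e (by rw [he]; exact hv)⟩

/-- a set is relatively compact if a map bounded below takes it to a relatively compact set. -/
theorem compact_of_below {E X W : Type*} [NormedAddCommGroup E] [NormedAddCommGroup X]
    [NormedAddCommGroup W] [CompleteSpace X] (S : Set X) (i : E → X) (hS : S ⊆ Set.range i)
    (g : E → W) (c : ℝ) (hc : 0 < c)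
    (hg : ∀ x y : E, c * ‖i x - i y‖ ≤ ‖g x - g y‖) (h : IsCompact (closure (g '' (i ⁻¹' S)))) :
    IsCompact (closure S) := by
  have htb : TotallyBounded (g '' (i ⁻¹' S)) := h.totallyBounded.subset subset_closure
  refine TotallyBounded.isCompact_of_isClosed (TotallyBounded.closure ?_) isClosed_closure
  rw [Metric.totallyBounded_iff]
  intro ε hε
  obtain ⟨t, htS, htf, ht⟩ := totallyBounded_iff_subset.mp htb _
    (Metric.dist_mem_uniformity (show 0 < c * ε by positivity))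
  have htS' : ∀ y ∈ t, ∃ x : E, i x ∈ S ∧ g x = y := fun y hy => htS hy
  choose! p hp1 hp2 using htS'
  refine ⟨(fun y => i (p y)) '' t, htf.image _, fun x hx => ?_⟩
  obtain ⟨e, rfl⟩ := hS hx
  obtain ⟨y, hy, hxy⟩ := Set.mem_iUnion₂.mp (ht ⟨e, hx, rfl⟩)
  refine Set.mem_iUnion₂.mpr ⟨i (p y), ⟨y, hy, rfl⟩, ?_⟩
  have h1 : dist (g e) y < c * ε := hxy
  rw [← hp2 y hy, dist_eq_norm] at h1
  rw [Metric.mem_ball, dist_eq_norm]
  exact lt_of_mul_lt_mul_left (lt_of_le_of_lt (hg e (p y)) h1) hc.le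

/-- relative compactness from sequences. -/
theorem compact_of_seq {W : Type*} [NormedAddCommGroup W] (S : Set W)
    (h : ∀ u : ℕ → W, (∀ n, u n ∈ S) → ∃ a : W, ∃ s : ℕ → ℕ, StrictMono s ∧
      Tendsto (u ∘ s) atTop (𝓝 a)) : IsCompact (closure S) := by
  apply IsSeqCompact.isCompact
  intro u hu
  have h1 : ∀ n : ℕ, ∃ v ∈ S, dist (u n) v < 1 / ((n : ℝ) + 1) := fun n =>
    Metric.mem_closure_iff.mp (hu n) _ (by positivity)
  choose v hv1 hv2 using h1
  obtain ⟨a, s, hs, ha⟩ := h v hv1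
  refine ⟨a, mem_closure_of_tendsto ha (Eventually.of_forall fun n => hv1 _), s, hs, ?_⟩
  have h2 : Tendsto (fun n => dist (u (s n)) (v (s n))) atTop (𝓝 0) :=
    squeeze_zero (fun n => dist_nonneg) (fun n => (hv2 (s n)).le)
      (tendsto_one_div_add_atTop_nhds_zero_nat.comp hs.tendsto_atTop)
  exact (tendsto_iff_of_dist h2).mpr ha

theorem IsPettis.congr {g : Ω → X} (hf : IsPettis f μ) (h : f =ᵐ[μ] g) : IsPettis g μ := by
  have h1 : ∀ φ : X →L[ℝ] ℝ, (fun ω => φ (f ω)) =ᵐ[μ] fun ω => φ (g ω) := fun φ => by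
    filter_upwards [h] with ω hω
    rw [hω]
  refine ⟨fun φ => (hf.1 φ).congr (h1 φ), fun A hA => ?_⟩
  obtain ⟨v, hv⟩ := hf.2 A hA
  exact ⟨v, fun φ => by rw [hv φ]; exact integral_congr_ae (ae_restrict_of_ae (h1 φ))⟩

theorem IsIntegral.congr {g : Ω → X} {A : Set Ω} {v : X} (hf : IsIntegral f μ A v)
    (h : f =ᵐ[μ] g) : IsIntegral g μ A v := by
  intro φ
  rw [hf φ]
  refine integral_congr_ae (ae_restrict_of_ae ?_)
  filter_upwards [h] with ω hω
  rw [hω]

section Isometry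

variable {E : Type*} [NormedAddCommGroup E] [NormedSpace ℝ E] (i : E →L[ℝ] X)
  (hi : ∀ e, ‖i e‖ = ‖e‖)

include hi in
/-- `E` is identified with a subspace of `X`. -/
theorem exists_back : ∃ b : (LinearMap.range (i : E →ₗ[ℝ] X)) →L[ℝ] E, ‖b‖ ≤ 1 ∧
    ∀ (e : E) (h : i e ∈ LinearMap.range (i : E →ₗ[ℝ] X)), b ⟨i e, h⟩ = e := by
  let j : E →ₗᵢ[ℝ] X := ⟨(i : E →ₗ[ℝ] X), hi⟩
  refine ⟨(j.equivRange.symm.toContinuousLinearEquiv : _ →L[ℝ] E), ?_, fun e h => ?_⟩
  · refine ContinuousLinearMap.opNorm_le_bound _ zero_le_one fun y => ?_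
    rw [one_mul]
    exact (j.equivRange.symm.norm_map y).le
  · exact j.equivRange.symm_apply_eq.mpr rfl

end Isometry

/-- functionals vanishing on the range of the integral vanish almost everywhere along `f`. -/
theorem vanish {E : Type*} [NormedAddCommGroup E] [NormedSpace ℝ E] (i : E →L[ℝ] X)
    (hf : IsPettis f μ) (hE : integralRange f μ ⊆ Set.range i) (φ : X →L[ℝ] ℝ)
    (hφ : ∀ e ∈ LinearMap.range (i : E →ₗ[ℝ] X), φ e = 0) : ∀ᵐ ω ∂μ, φ (f ω) = 0 :=
  PT.ae_zero hf.1 hf.2 (LinearMap.range (i : E →ₗ[ℝ] X))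
    (fun A v hA hv => by
      obtain ⟨e, he⟩ := hE ⟨A, hA, hv⟩
      exact ⟨e, he⟩) φ hφ

/-- The transfer to the bidual. -/
theorem transferred {E Z : Type*} [NormedAddCommGroup E] [NormedSpace ℝ E] [NormedAddCommGroup Z]
    [NormedSpace ℝ Z] [TopologicalSpace.SeparableSpace Z] (hf : IsPettis f μ)
    (i : E →L[ℝ] X) (hi : ∀ e, ‖i e‖ = ‖e‖) (hE : integralRange f μ ⊆ Set.range i)
    (T : E →L[ℝ] Z) :
    ∃ F : Ω → Bidual Z, Integrates f μ i (up T) F ∧ ActsAs f μ i (up T) F := by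
  obtain ⟨b, hb, hbe⟩ := exists_back i hi
  have hmem : ∀ e : E, i e ∈ LinearMap.range (i : E →ₗ[ℝ] X) := fun e => ⟨e, rfl⟩
  have hC : ‖(NormedSpace.inclusionInDoubleDual ℝ Z).comp (T.comp b)‖ ≤ ‖up T‖ := by
    calc ‖(NormedSpace.inclusionInDoubleDual ℝ Z).comp (T.comp b)‖
        = ‖((NormedSpace.inclusionInDoubleDual ℝ Z).comp T).comp b‖ := rfl
      _ ≤ ‖(NormedSpace.inclusionInDoubleDual ℝ Z).comp T‖ * ‖b‖ :=
          ContinuousLinearMap.opNorm_comp_le _ _
      _ ≤ ‖(NormedSpace.inclusionInDoubleDual ℝ Z).comp T‖ * 1 := by gcongr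
      _ = ‖(NormedSpace.inclusionInDoubleDual ℝ Z).comp T‖ := mul_one _
  obtain ⟨F, hF1, N, hN, hF2⟩ := PT.transfer_bidual μ f (LinearMap.range (i : E →ₗ[ℝ] X))
    (vanish i hf hE) (T.comp b) _ hC
  have hF3 : ∀ ζ : Bidual Z →L[ℝ] ℝ, ∃ x : X →L[ℝ] ℝ, ‖x‖ ≤ ‖up T‖ * ‖ζ‖ ∧
      (∀ e : E, x (i e) = ζ (up T e)) ∧ ∀ ω, ω ∉ N → ζ (F ω) = x (f ω) := by
    intro ζ
    obtain ⟨x, hx1, hx2, hx3⟩ := hF2 ζ
    refine ⟨x, hx1, fun e => ?_, hx3⟩
    have h1 := hx2 ⟨i e, hmem e⟩
    rw [ContinuousLinearMap.comp_apply, hbe e (hmem e)] at h1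
    exact h1
  refine ⟨F, ?_, N, hN, fun ω _ => hF1 ω, hF3⟩
  exact push hf i hE (up T) F N hN (fun ζ => by
    obtain ⟨x, _, hx2, hx3⟩ := hF3 ζ
    exact ⟨x, hx2, hx3⟩) (ContinuousLinearMap.id ℝ _)

/-- Compactness for a transferred function. -/
theorem compactRange_of [IsFiniteMeasure μ] [CompleteSpace X] {E W : Type*}
    [NormedAddCommGroup E] [NormedSpace ℝ E] [NormedAddCommGroup W] [NormedSpace ℝ W]
    (i : E →L[ℝ] X) (hi : ∀ e, ‖i e‖ = ‖e‖) (hE : integralRange f μ ⊆ Set.range i)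
    (S : E →L[ℝ] W) (h : IsCompact (closure (S '' {e | i e ∈ integralRange f μ}))) :
    CompactRange f μ i S := by
  refine ⟨h, ?_⟩
  rintro ⟨c, hc, hce⟩
  refine compact_of_below (integralRange f μ) i hE S c hc (fun x y => ?_) h
  rw [← map_sub, hi, ← map_sub]
  exact hce _

/-- Operators on the bidual with values in a separable space. -/
theorem separable_target [IsFiniteMeasure μ] [CompleteSpace X] {E Z W : Type*}
    [NormedAddCommGroup E] [NormedSpace ℝ E] [NormedAddCommGroup Z] [NormedSpace ℝ Z]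
    [TopologicalSpace.SeparableSpace Z] [NormedAddCommGroup W] [NormedSpace ℝ W] [CompleteSpace W]
    [TopologicalSpace.SeparableSpace W] (hf : IsPettis f μ)
    (i : E →L[ℝ] X) (hi : ∀ e, ‖i e‖ = ‖e‖) (hE : integralRange f μ ⊆ Set.range i)
    (T : E →L[ℝ] Z) (R : Bidual Z →L[ℝ] W) :
    (∃ H : Ω → W, StronglyMeasurable H ∧ Integrates f μ i (R.comp (up T)) H) ∧
      CompactRange f μ i (R.comp (up T)) := by
  obtain ⟨F, -, N, hN, -, hF2⟩ := transferred hf i hi hE T
  obtain ⟨hP, hI⟩ := push hf i hE (up T) F N hN (fun ζ => by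
    obtain ⟨x, _, hx2, hx3⟩ := hF2 ζ
    exact ⟨x, hx2, hx3⟩) R
  have hsm : AEStronglyMeasurable (fun ω => R (F ω)) μ :=
    PT.aesm_of_weak _ fun φ => (hP.1 φ).aestronglyMeasurable
  have hcomp := PT.compact_range (fun ω => R (F ω)) hP.1 hP.2
  refine ⟨⟨hsm.mk _, hsm.stronglyMeasurable_mk, hP.congr hsm.ae_eq_mk, fun A v hv =>
    (hI A v hv).congr hsm.ae_eq_mk⟩, compactRange_of i hi hE _ ?_⟩
  refine hcomp.of_isClosed_subset isClosed_closure (closure_mono ?_)
  rintro _ ⟨e, ⟨A, hA, he⟩, rfl⟩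
  exact ⟨A, hA, hI A e he⟩

/-- Operators into `L¹(m)`. -/
theorem l1_target [IsFiniteMeasure μ] [CompleteSpace X] {E S : Type*} [NormedAddCommGroup E]
    [NormedSpace ℝ E] [MeasurableSpace S] (m : Measure S) (hf : IsPettis f μ)
    (i : E →L[ℝ] X) (hi : ∀ e, ‖i e‖ = ‖e‖) (hE : integralRange f μ ⊆ Set.range i)
    (T : E →L[ℝ] Lp ℝ 1 m) : CompactRange f μ i T := by
  refine compactRange_of i hi hE T (compact_of_seq _ fun u hu => ?_)
  choose e he heu using hu
  choose A hA heA using he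
  obtain ⟨b, hb, hbe⟩ := exists_back i hi
  have hmem : ∀ e : E, i e ∈ LinearMap.range (i : E →ₗ[ℝ] X) := fun e => ⟨e, rfl⟩
  obtain ⟨ρ, hρ, Y, hY, P, hP⟩ := PT.l1_model m (fun n => T (e n))
  let res : (((Lp ℝ 1 m) →L[ℝ] ℝ) →L[ℝ] ℝ) →L[ℝ] (Y →L[ℝ] ℝ) :=
    (ContinuousLinearMap.compL ℝ Y ((Lp ℝ 1 m) →L[ℝ] ℝ) ℝ).flip Y.subtypeL
  let U : E →L[ℝ] (Y →L[ℝ] ℝ) :=
    (res.comp (NormedSpace.inclusionInDoubleDual ℝ (Lp ℝ 1 m))).comp T
  have hU : ∀ (v : E) (y : Y), U v y = (y : (Lp ℝ 1 m) →L[ℝ] ℝ) (T v) :=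
    fun v y => rfl
  obtain ⟨F, -, N, hN, hF⟩ := PT.transfer_sep μ f (LinearMap.range (i : E →ₗ[ℝ] X))
    (vanish i hf hE) (U.comp b)
  obtain ⟨hPF, hI⟩ := push hf i hE U F N hN (fun ζ => by
    obtain ⟨x, _, hx2, hx3⟩ := hF ζ
    refine ⟨x, fun e => ?_, hx3⟩
    have h1 := hx2 ⟨i e, hmem e⟩
    rw [ContinuousLinearMap.comp_apply, hbe e (hmem e)] at h1
    exact h1) P
  have hiso := hP (fun n => U (e n)) (fun n y => hU (e n) y)
  have hft : Fact ((1 : ENNReal) ≠ ⊤) := ⟨ENNReal.one_ne_top⟩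
  have hsc : SecondCountableTopology (Lp ℝ 1 ρ) := Lp.SecondCountableTopology
  have hcomp := PT.compact_range (fun ω => P (F ω)) hPF.1 hPF.2
  obtain ⟨a, -, s, hs, ha⟩ := hcomp.tendsto_subseq (x := fun n => P (U (e n)))
    (fun n => subset_closure ⟨A n, hA n, hI (A n) (e n) (heA n)⟩)
  have hcau : CauchySeq ((fun n => T (e n)) ∘ s) := by
    have h1 := ha.cauchySeq
    rw [Metric.cauchySeq_iff] at h1 ⊢
    intro ε hε
    obtain ⟨n0, hn0⟩ := h1 ε hε
    refine ⟨n0, fun i hi j hj => ?_⟩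
    have h2 := hn0 i hi j hj
    rw [dist_eq_norm] at h2 ⊢
    simp only [Function.comp_apply] at h2 ⊢
    rw [hiso] at h2
    exact h2
  obtain ⟨b, hb⟩ := cauchySeq_tendsto_of_complete hcau
  refine ⟨b, s, hs, ?_⟩
  have : u ∘ s = (fun n => T (e n)) ∘ s := by
    funext n
    exact (heu (s n)).symm
  rw [this]
  exact hb

end Lemmas

/-- Let `f : Ω → X` be Pettis integrable for a finite measure `μ`, and let `E` be a linear
subspace of `X` (a normed space with a linear isometry `i` to `X`) which contains the range of its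
indefinite integral, for example the closed linear span of the range.

(A) Every bounded operator `T` from `E` to a separable space `Z` is transferred to a function
`F : Ω → Z**` which is Pettis integrable (for all functionals in `Z***`) with
`∫_A F = T (∫_A f)`; off one null set every `ζ ∈ Z***` acts on `F` as some `x ∈ X*` acts on `f`.

(B) If `R : Z** → W` is a bounded operator to a separable Banach space `W`, then `R T` maps the
range to a relatively norm compact set, and there is a strongly measurable `H : Ω → W` with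
`∫_A H = R T (∫_A f)`.  If `R T` is an isomorphic embedding (for example if `W = Z`, `R` is a
projection of `Z**` onto `Z` and `T` embeds `E` in `Z`) the range is relatively norm compact.

(C) The same compactness holds for every bounded operator from `E` to `L¹(m)`, `m` any measure;
the range is relatively norm compact if `E` embeds in `L¹(m)`. -/
theorem result.{u, v, w, z, t} {Ω : Type u} {X : Type v} [MeasurableSpace Ω] (μ : Measure Ω)
    [IsFiniteMeasure μ] [NormedAddCommGroup X] [NormedSpace ℝ X] [CompleteSpace X] (f : Ω → X)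
    (hf : IsPettis f μ) {E : Type w} [NormedAddCommGroup E] [NormedSpace ℝ E] (i : E →L[ℝ] X)
    (hi : ∀ e, ‖i e‖ = ‖e‖) (hE : integralRange f μ ⊆ Set.range i) :
    (∀ (Z : Type z) [NormedAddCommGroup Z] [NormedSpace ℝ Z] [TopologicalSpace.SeparableSpace Z]
      (T : E →L[ℝ] Z), ∃ F : Ω → Bidual Z,
        Integrates f μ i (up T) F ∧ ActsAs f μ i (up T) F) ∧
    (∀ (Z W : Type z) [NormedAddCommGroup Z] [NormedSpace ℝ Z]
      [TopologicalSpace.SeparableSpace Z] [NormedAddCommGroup W] [NormedSpace ℝ W]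
      [CompleteSpace W] [TopologicalSpace.SeparableSpace W] (T : E →L[ℝ] Z)
      (R : Bidual Z →L[ℝ] W),
      (∃ H : Ω → W, StronglyMeasurable H ∧ Integrates f μ i (R.comp (up T)) H) ∧
        CompactRange f μ i (R.comp (up T))) ∧
    CompactInL1.{u, v, w, t} f μ i :=
  ⟨fun _ _ _ _ T => transferred hf i hi hE T, fun _ _ _ _ _ _ _ _ _ T R =>
    separable_target hf i hi hE T R, fun _ _ m T => l1_target m hf i hi hE T⟩

end Pool.Agent.Results.MP_7b08db_an.BidualTransfer
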