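import Pool.Agent.Lib_helper59.PU.Low

/-!
# Universality of the Fremlin–Talagrand example

Let `f : Ω → X` be Pettis integrable and let `E` be the closed linear span of the range of its
indefinite integral.  If the range is not relatively norm compact, then a sequence of functionals
of `X` maps `E` onto the space of null sequences, is not uniformly small on the range, and along
`f` it takes, on a set of positive measure, all patterns of signs.  In particular the range is
relatively norm compact whenever `c₀` is not a quotient of `E`.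
-/

set_option autoImplicit false
set_option maxSynthPendingDepth 3

namespace Pool.Agent.Results.MP_7b08db_an.C0Quotient

open MeasureTheory Filter Topology

open scoped ZeroAtInfty

section Definitions

variable {Ω X : Type*} [MeasurableSpace Ω] [NormedAddCommGroup X] [NormedSpace ℝ X]
  (f : Ω → X) (μ : Measure Ω)

/-- `v` is the Pettis integral of `f` over `A`. -/
def IsIntegral (A : Set Ω) (v : X) : Prop :=
  ∀ φ : X →L[ℝ] ℝ, φ v = ∫ ω in A, φ (f ω) ∂μ

/-- `f` is Pettis integrable. -/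
def IsPettis : Prop :=
  (∀ φ : X →L[ℝ] ℝ, Integrable (fun ω => φ (f ω)) μ) ∧
    ∀ A : Set Ω, MeasurableSet A → ∃ v : X, IsIntegral f μ A v

/-- The range of the indefinite Pettis integral of `f`. -/
def integralRange : Set X :=
  {v | ∃ A : Set Ω, MeasurableSet A ∧ IsIntegral f μ A v}

/-- The closed linear span of the range of the indefinite integral. -/
def spanRange : Submodule ℝ X :=
  (Submodule.span ℝ (integralRange f μ)).topologicalClosure

/-- The bounded sequence of functionals `φ` maps the closed span of the range exactly onto the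
space of null sequences, and no `φ j` is small on the range. -/
def OntoC0 (φ : ℕ → (X →L[ℝ] ℝ)) : Prop :=
  (∃ C : ℝ, ∀ j, ‖φ j‖ ≤ C) ∧
    (fun (x : X) (j : ℕ) => φ j x) '' (spanRange f μ : Set X) =
      {u : ℕ → ℝ | Tendsto u atTop (𝓝 0)} ∧
    ∃ δ : ℝ, 0 < δ ∧ ∀ j, ∃ v ∈ integralRange f μ, δ ≤ |φ j v|

/-- On a set of positive measure the functions `φ j ∘ f` take all patterns of signs, with a fixed
size: for every finite set of indices, every choice of signs occurs with positive measure. -/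
def AllSigns (φ : ℕ → (X →L[ℝ] ℝ)) : Prop :=
  ∃ (A : Set Ω) (η : ℝ), MeasurableSet A ∧ 0 < η ∧
    ∀ (F : Finset ℕ) (σ : ℕ → ℝ), (∀ j, σ j = 1 ∨ σ j = -1) →
      0 < μ (A ∩ {ω | ∀ j ∈ F, η < σ j * φ j (f ω)})

end Definitions

/-- `c₀` is a quotient of `E`: a bounded operator maps `E` onto the Banach space `C₀(ℕ, ℝ)` of
null sequences. -/
def HasQuotientC0 (E : Type*) [NormedAddCommGroup E] [NormedSpace ℝ E] : Prop :=
  ∃ T : E →L[ℝ] C₀(ℕ, ℝ), Function.Surjective T

theorem result {Ω X : Type*} [MeasurableSpace Ω] [NormedAddCommGroup X] [NormedSpace ℝ X]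
    [CompleteSpace X] (f : Ω → X) (μ : Measure Ω) [IsFiniteMeasure μ] (hf : IsPettis f μ) :
    (¬ IsCompact (closure (integralRange f μ)) ↔
      ∃ φ : ℕ → (X →L[ℝ] ℝ), OntoC0 f μ φ ∧ AllSigns f μ φ) ∧
    (¬ HasQuotientC0 (spanRange f μ) → IsCompact (closure (integralRange f μ))) := by
  classical
  obtain ⟨hi, hP⟩ := hf
  have hRE : ∀ (A : Set Ω) (v : X), MeasurableSet A → IsIntegral f μ A v → v ∈ spanRange f μ :=
    fun A v hA hv => Submodule.le_topologicalClosure _ (Submodule.subset_span ⟨A, hA, hv⟩)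
  have hEcl : IsClosed (spanRange f μ : Set X) := Submodule.isClosed_topologicalClosure _
  have main : ¬ IsCompact (closure (integralRange f μ)) →
      ∃ φ : ℕ → (X →L[ℝ] ℝ), OntoC0 f μ φ ∧ AllSigns f μ φ := by
    intro hnc
    have hnt : ¬ TotallyBounded (integralRange f μ) := fun h =>
      hnc (TotallyBounded.isCompact_of_isClosed h.closure isClosed_closure)
    obtain ⟨g, hg, hgb⟩ := PU.exists_bound f hi
    obtain ⟨m, δ, φ, A0, η, hδ, hη, hφ, hz, hbig, hA0, hA0D, hpat⟩ :=
      PU.exists_family f hi hP g hg hgb hnt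
    have hnull : ∀ e ∈ spanRange f μ, Tendsto (fun j => φ j e) atTop (𝓝 0) := fun e he =>
      PU.null_span φ 2 (by norm_num) hφ (integralRange f μ)
        (fun v ⟨A, hA, hv⟩ => hz A v hA hv) e he
    have hlow : ∀ (F : Finset ℕ) (a : ℕ → ℝ) (t : ℝ), 0 ≤ t →
        (∀ e ∈ spanRange f μ, |∑ j ∈ F, a j * φ j e| ≤ t * ‖e‖) →
          η / ((m : ℝ) + 1) * ∑ j ∈ F, |a j| ≤ t := by
      intro F a t ht h
      have h1 := PU.l1_lower f hi hP (spanRange f μ) hRE g hgb m A0 hA0D φ η hpat F a t ht h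
      rw [div_mul_eq_mul_div, div_le_iff₀ (by positivity)]
      nlinarith
    refine ⟨φ, ⟨⟨2, hφ⟩, ?_, δ / 4, by positivity, fun j => ?_⟩, A0, η, hA0, hη, hpat⟩
    · ext u
      constructor
      · rintro ⟨e, he, rfl⟩
        exact hnull e he
      · intro hu
        obtain ⟨e, he, hej⟩ := PU.onto (spanRange f μ) hEcl φ 2 (by norm_num) hφ hnull
          (η / ((m : ℝ) + 1)) (by positivity) hlow u hu
        exact ⟨e, he, funext hej⟩
    · obtain ⟨A, hA, -, hA2⟩ := PT.half_part (fun ω => φ j (f ω)) (hi (φ j)) {ω | g ω ≤ m}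
        (measurableSet_le hg measurable_const) (δ / 2) (by linarith [hbig j])
      obtain ⟨v, hv⟩ := hP A hA
      refine ⟨v, ⟨A, hA, hv⟩, ?_⟩
      rw [hv (φ j)]
      linarith
  have conv : (∃ φ : ℕ → (X →L[ℝ] ℝ), OntoC0 f μ φ ∧ AllSigns f μ φ) →
      ¬ IsCompact (closure (integralRange f μ)) := by
    rintro ⟨φ, ⟨⟨C, hC⟩, himg, δ, hδ, hbig⟩, -⟩ hcomp
    have hC0 : 0 ≤ C := (norm_nonneg _).trans (hC 0)
    have hz : ∀ v ∈ integralRange f μ, Tendsto (fun j => φ j v) atTop (𝓝 0) := by
      rintro v ⟨A, hA, hv⟩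
      have h1 : (fun j => φ j v) ∈ {u : ℕ → ℝ | Tendsto u atTop (𝓝 0)} := by
        rw [← himg]
        exact ⟨v, hRE A v hA hv, rfl⟩
      exact h1
    obtain ⟨j, hj⟩ := PU.unif_small φ C hC0 hC (integralRange f μ) hz
      (hcomp.totallyBounded.subset subset_closure) δ hδ
    obtain ⟨v, hv, hv2⟩ := hbig j
    have := hj v hv
    linarith
  refine ⟨⟨main, conv⟩, fun hno => ?_⟩
  by_contra hnc
  obtain ⟨φ, ⟨⟨C, hC⟩, himg, -⟩, -⟩ := main hnc
  have hC0 : 0 ≤ C := (norm_nonneg _).trans (hC 0)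
  have hnull : ∀ e : spanRange f μ, Tendsto (fun j => φ j (e : X)) atTop (𝓝 0) := by
    intro e
    have h1 : (fun j => φ j (e : X)) ∈ {u : ℕ → ℝ | Tendsto u atTop (𝓝 0)} := by
      rw [← himg]
      exact ⟨e, e.2, rfl⟩
    exact h1
  let T0 : spanRange f μ →ₗ[ℝ] C₀(ℕ, ℝ) :=
    { toFun := fun e => PU.c0 (fun j => φ j (e : X)) (hnull e)
      map_add' := by
        intro e e'
        ext j
        rw [ZeroAtInftyContinuousMap.add_apply, PU.c0_apply, PU.c0_apply, PU.c0_apply,
          Submodule.coe_add, map_add]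
      map_smul' := by
        intro c e
        ext j
        rw [ZeroAtInftyContinuousMap.smul_apply, PU.c0_apply, PU.c0_apply, Submodule.coe_smul,
          map_smul]
        rfl }
  let T : spanRange f μ →L[ℝ] C₀(ℕ, ℝ) := T0.mkContinuous C (by
    intro e
    refine (PU.norm_le_iff _ _ (by positivity)).mpr fun j => ?_
    calc |φ j (e : X)| = ‖φ j (e : X)‖ := rfl
      _ ≤ ‖φ j‖ * ‖(e : X)‖ := (φ j).le_opNorm _
      _ ≤ C * ‖(e : X)‖ := by
        gcongr
        exact hC j)
  refine hno ⟨T, fun w => ?_⟩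
  have h1 : (fun j => w j) ∈ (fun (x : X) (j : ℕ) => φ j x) '' (spanRange f μ : Set X) := by
    rw [himg]
    exact PU.null_of w
  obtain ⟨e, he, hew⟩ := h1
  refine ⟨⟨e, he⟩, ?_⟩
  ext j
  exact congrFun hew j

end Pool.Agent.Results.MP_7b08db_an.C0Quotient
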